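import Pool.Agent.helper77.MC.Spec

set_option autoImplicit false

namespace Pool.Agent.helper77.MC

open Finset Numbering

theorem GD (h1 : FA_stmt) : GD_stmt := by
  intro β _ _ y c m w g hy hc hw hg f
  obtain ⟨hA, hB, -⟩ := h1 β y c c m m hy hc
  by_cases h : ∃ J₀ ∈ fam y c m, f ∈ prefixed J₀
  · obtain ⟨J₀, hJ₀, hf₀⟩ := h
    have huniq : ∀ J ∈ fam y c m, f ∈ prefixed J → J = J₀ := by
      intro J hJ hf
      by_contra hne
      have h2 : ¬ J ⊆ J₀ := fun h => hne (hB J hJ J₀ hJ₀ h)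
      have h3 : ¬ J₀ ⊆ J := fun h => hne (hB J₀ hJ₀ J hJ h).symm
      exact (Finset.disjoint_left.1 (disjoint_prefixed_prefixed h2 h3)) hf hf₀
    rw [Finset.sum_eq_single J₀]
    · rw [if_pos hf₀]
      exact hg _ (hA J₀ hJ₀).2.1
    · intro J hJ hne
      rw [if_neg]
      intro hf
      exact hne (huniq J hJ hf)
    · intro h
      exact absurd hJ₀ h
  · rw [Finset.sum_eq_zero]
    · exact hw
    · intro J hJ
      rw [if_neg]
      intro hf
      exact h ⟨J, hJ, hf⟩

end Pool.Agent.helper77.MC
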