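import Pool.Agent.helper77.MC.Spec

set_option autoImplicit false

namespace Pool.Agent.helper77.MC

open Finset Numbering

theorem SG (h1 : JC_stmt) : SG_stmt := by
  intro β _ _ t A hA hanti
  have hcard : ∀ s ∈ A, (#((prefixed s : Finset (Numbering β)) ∩ prefixed t) : ℝ) =
      (#(prefixed t : Finset (Numbering β)) : ℝ) * ((#t).choose #s : ℝ)⁻¹ := by
    intro s hs
    have h2 := h1 β s t (hA s hs)
    have h3 : 0 < (#t).choose #s := Nat.choose_pos (Finset.card_le_card (hA s hs))
    have h4 : ((#t).choose #s : ℝ) ≠ 0 := by exact_mod_cast h3.ne'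
    rw [eq_mul_inv_iff_mul_eq₀ h4]
    exact_mod_cast h2
  have hdis : ((A : Finset (Finset β)) : Set (Finset β)).PairwiseDisjoint
      (fun s => (prefixed s : Finset (Numbering β)) ∩ prefixed t) := by
    intro s hs s' hs' hne
    have h2 : ¬ s ⊆ s' := fun h => hne (hanti s hs s' hs' h)
    have h3 : ¬ s' ⊆ s := fun h => hne (hanti s' hs' s hs h).symm
    exact (disjoint_prefixed_prefixed h2 h3).mono Finset.inter_subset_left Finset.inter_subset_left
  have h5 : (A.biUnion fun s => (prefixed s : Finset (Numbering β)) ∩ prefixed t) ⊆ prefixed t := by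
    intro f hf
    obtain ⟨s, -, hs⟩ := Finset.mem_biUnion.1 hf
    exact (Finset.mem_inter.1 hs).2
  have h6 := Finset.card_le_card h5
  rw [Finset.card_biUnion hdis] at h6
  have h7 : (∑ s ∈ A, (#((prefixed s : Finset (Numbering β)) ∩ prefixed t) : ℝ)) ≤
      (#(prefixed t : Finset (Numbering β)) : ℝ) := by exact_mod_cast h6
  rw [Finset.sum_congr rfl hcard, ← Finset.mul_sum] at h7
  have h8 : 0 < (#(prefixed t : Finset (Numbering β)) : ℝ) := by
    have h9 : 0 < #(prefixed t : Finset (Numbering β)) := by
      rw [card_prefixed]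
      positivity
    exact_mod_cast h9
  nlinarith

end Pool.Agent.helper77.MC
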